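import Pool.Agent.R190.Bang.Defs

set_option autoImplicit false

open MeasureTheory Set Filter Topology Real
open scoped InnerProductSpace

namespace Pool.Agent.R190.Bang

/-- The antiperiodic trigonometric functions on `(0,1)` in the natural order. -/
noncomputable def nat (j : ℕ) (x : ℝ) : ℝ :=
  if Even j then √2 * Real.cos ((j + 1) * π * x) else √2 * Real.sin (j * π * x)

lemma nat_even (k : ℕ) (x : ℝ) : nat (2 * k) x = √2 * Real.cos ((2 * k + 1) * π * x) := by
  simp [nat]

lemma nat_odd (k : ℕ) (x : ℝ) : nat (2 * k + 1) x = √2 * Real.sin ((2 * k + 1) * π * x) := by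
  have h : ¬ Even (2 * k + 1) := by simp
  rw [nat, if_neg h]
  push_cast
  rfl

lemma nat_cont (j : ℕ) : Continuous (nat j) := by
  unfold nat
  split_ifs <;> fun_prop

lemma nat_abs_le (j : ℕ) (x : ℝ) : |nat j x| ≤ √2 := by
  unfold nat
  split_ifs
  · rw [abs_mul, abs_of_nonneg (Real.sqrt_nonneg _)]
    have := Real.abs_cos_le_one ((j + 1) * π * x)
    nlinarith [Real.sqrt_nonneg 2]
  · rw [abs_mul, abs_of_nonneg (Real.sqrt_nonneg _)]
    have := Real.abs_sin_le_one (j * π * x)
    nlinarith [Real.sqrt_nonneg 2]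

lemma nat_memLp (j : ℕ) : MemLp (fun x => (nat j x : ℂ)) 2 mu := by
  refine MemLp.of_bound ?_ (√2) (ae_of_all _ fun x => ?_)
  · exact (Complex.continuous_ofReal.comp (nat_cont j)).aestronglyMeasurable
  · simpa using nat_abs_le j x

noncomputable def e (j : ℕ) : L2 := (nat_memLp j).toLp

lemma e_coe (j : ℕ) : (e j : ℝ → ℂ) =ᵐ[mu] fun x => (nat j x : ℂ) := (nat_memLp j).coeFn_toLp

lemma integral_mu {E : Type*} [NormedAddCommGroup E] [NormedSpace ℝ E] (g : ℝ → E) :
    ∫ x, g x ∂mu = ∫ x in (0 : ℝ)..1, g x := by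
  rw [intervalIntegral.integral_of_le zero_le_one, integral_Ioc_eq_integral_Ioo]

lemma inner_e_left (j : ℕ) (y : L2) : ⟪e j, y⟫_ℂ = ∫ x, (nat j x : ℂ) * y x ∂mu := by
  rw [MeasureTheory.L2.inner_def]
  refine integral_congr_ae ?_
  filter_upwards [e_coe j] with x hx
  rw [hx, RCLike.inner_apply]
  simp [mul_comm]

lemma integrable_e_mul (j : ℕ) (y : L2) : Integrable (fun x => (nat j x : ℂ) * y x) mu := by
  refine (MeasureTheory.L2.integrable_inner (𝕜 := ℂ) (e j) y).congr ?_
  filter_upwards [e_coe j] with x hx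
  rw [hx, RCLike.inner_apply]
  simp [mul_comm]

lemma inner_e (i j : ℕ) : ⟪e i, e j⟫_ℂ = ((∫ x in (0 : ℝ)..1, nat i x * nat j x : ℝ) : ℂ) := by
  rw [inner_e_left, ← integral_mu, ← integral_complex_ofReal]
  refine integral_congr_ae ?_
  filter_upwards [e_coe j] with x hx
  rw [hx]
  push_cast
  rfl

lemma int_cos (m : ℤ) (hm : m ≠ 0) : ∫ x in (0 : ℝ)..1, Real.cos (2 * π * m * x) = 0 := by
  have h : (2 * π * m : ℝ) ≠ 0 := by
    have : (m : ℝ) ≠ 0 := by exact_mod_cast hm
    positivity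
  rw [intervalIntegral.integral_comp_mul_left (fun y => Real.cos y) h, integral_cos]
  have : Real.sin (2 * π * m * 1) = 0 := by
    have := Real.sin_int_mul_pi (2 * m)
    push_cast at this
    rw [← this]
    ring_nf
  rw [this]
  simp

lemma int_sin (m : ℤ) : ∫ x in (0 : ℝ)..1, Real.sin (2 * π * m * x) = 0 := by
  by_cases hm : m = 0
  · simp [hm]
  have h : (2 * π * m : ℝ) ≠ 0 := by
    have : (m : ℝ) ≠ 0 := by exact_mod_cast hm
    positivity
  rw [intervalIntegral.integral_comp_mul_left (fun y => Real.sin y) h, integral_sin]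
  have : Real.cos (2 * π * m * 1) = 1 := by
    have h1 := Real.cos_int_mul_two_pi m
    have h2 : (2 * π * m * 1 : ℝ) = m * (2 * π) := by ring
    rw [h2, h1]
  rw [this]
  simp

lemma two_sq : √2 * √2 = (2 : ℝ) := Real.mul_self_sqrt (by norm_num)

lemma int_ee (k l : ℕ) :
    ∫ x in (0 : ℝ)..1, nat (2 * k) x * nat (2 * l) x = if k = l then 1 else 0 := by
  have h : ∀ x : ℝ, nat (2 * k) x * nat (2 * l) x =
      Real.cos (2 * π * ((k + l + 1 : ℕ) : ℤ) * x) + Real.cos (2 * π * ((k : ℤ) - l : ℤ) * x) := by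
    intro x
    rw [nat_even, nat_even]
    have h1 : (2 * π * ((k + l + 1 : ℕ) : ℤ) * x : ℝ) =
        (2 * k + 1) * π * x + (2 * l + 1) * π * x := by push_cast; ring
    have h2 : (2 * π * ((k : ℤ) - l : ℤ) * x : ℝ) =
        (2 * k + 1) * π * x - (2 * l + 1) * π * x := by push_cast; ring
    rw [h1, h2, Real.cos_add, Real.cos_sub]
    have := two_sq
    linear_combination (Real.cos ((2 * k + 1) * π * x) * Real.cos ((2 * l + 1) * π * x)) * this
  simp_rw [h]
  rw [intervalIntegral.integral_add (by apply Continuous.intervalIntegrable; fun_prop)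
    (by apply Continuous.intervalIntegrable; fun_prop), int_cos _ (by omega)]
  by_cases hkl : k = l
  · subst hkl; simp
  · rw [int_cos _ (by omega), if_neg hkl]; simp

lemma int_oo (k l : ℕ) :
    ∫ x in (0 : ℝ)..1, nat (2 * k + 1) x * nat (2 * l + 1) x = if k = l then 1 else 0 := by
  have h : ∀ x : ℝ, nat (2 * k + 1) x * nat (2 * l + 1) x =
      Real.cos (2 * π * ((k : ℤ) - l : ℤ) * x) - Real.cos (2 * π * ((k + l + 1 : ℕ) : ℤ) * x) := by
    intro x
    rw [nat_odd, nat_odd]
    have h1 : (2 * π * ((k + l + 1 : ℕ) : ℤ) * x : ℝ) =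
        (2 * k + 1) * π * x + (2 * l + 1) * π * x := by push_cast; ring
    have h2 : (2 * π * ((k : ℤ) - l : ℤ) * x : ℝ) =
        (2 * k + 1) * π * x - (2 * l + 1) * π * x := by push_cast; ring
    rw [h1, h2, Real.cos_add, Real.cos_sub]
    have := two_sq
    linear_combination (Real.sin ((2 * k + 1) * π * x) * Real.sin ((2 * l + 1) * π * x)) * this
  simp_rw [h]
  rw [intervalIntegral.integral_sub (by apply Continuous.intervalIntegrable; fun_prop)
    (by apply Continuous.intervalIntegrable; fun_prop), int_cos ((k + l + 1 : ℕ) : ℤ) (by omega)]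
  by_cases hkl : k = l
  · subst hkl; simp
  · rw [int_cos _ (by omega), if_neg hkl]; simp

lemma int_eo (k l : ℕ) :
    ∫ x in (0 : ℝ)..1, nat (2 * k) x * nat (2 * l + 1) x = 0 := by
  have h : ∀ x : ℝ, nat (2 * k) x * nat (2 * l + 1) x =
      Real.sin (2 * π * ((k + l + 1 : ℕ) : ℤ) * x) - Real.sin (2 * π * ((k : ℤ) - l : ℤ) * x) := by
    intro x
    rw [nat_even, nat_odd]
    have h1 : (2 * π * ((k + l + 1 : ℕ) : ℤ) * x : ℝ) =
        (2 * k + 1) * π * x + (2 * l + 1) * π * x := by push_cast; ring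
    have h2 : (2 * π * ((k : ℤ) - l : ℤ) * x : ℝ) =
        (2 * k + 1) * π * x - (2 * l + 1) * π * x := by push_cast; ring
    rw [h1, h2, Real.sin_add, Real.sin_sub]
    have := two_sq
    linear_combination (Real.cos ((2 * k + 1) * π * x) * Real.sin ((2 * l + 1) * π * x)) * this
  simp_rw [h]
  rw [intervalIntegral.integral_sub (by apply Continuous.intervalIntegrable; fun_prop)
    (by apply Continuous.intervalIntegrable; fun_prop), int_sin, int_sin]
  simp

lemma int_nat (i j : ℕ) : ∫ x in (0 : ℝ)..1, nat i x * nat j x = if i = j then 1 else 0 := by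
  obtain ⟨k, hk⟩ := Nat.even_or_odd' i
  obtain ⟨l, hl⟩ := Nat.even_or_odd' j
  rcases hk with rfl | rfl <;> rcases hl with rfl | rfl
  · rw [int_ee]
    by_cases h : k = l
    · simp [h]
    · rw [if_neg h, if_neg (by omega)]
  · rw [int_eo, if_neg (by omega)]
  · simp_rw [mul_comm (nat (2 * k + 1) _)]
    rw [int_eo, if_neg (by omega)]
  · rw [int_oo]
    by_cases h : k = l
    · simp [h]
    · rw [if_neg h, if_neg (by omega)]

lemma e_orth : Orthonormal ℂ e := by
  rw [orthonormal_iff_ite]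
  intro i j
  rw [inner_e, int_nat]
  split_ifs <;> simp

lemma eq_zero_of_inner (y : L2) (hy : ∀ j, ⟪e j, y⟫_ℂ = 0) : y = 0 := by
  set w : ℝ → ℂ := fun x => Complex.exp (Complex.I * π * x) * y x with hw
  have hcon : Continuous fun x : ℝ => Complex.exp (Complex.I * π * x) := by fun_prop
  have hnorm : ∀ x : ℝ, ‖Complex.exp (Complex.I * π * x)‖ = 1 := by
    intro x
    have : Complex.I * π * x = ((π * x : ℝ) : ℂ) * Complex.I := by push_cast; ring
    rw [this, Complex.norm_exp_ofReal_mul_I]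
  have hwm : MemLp w 2 mu := by
    refine (Lp.memLp y).of_le (hcon.aestronglyMeasurable.mul (Lp.aestronglyMeasurable y)) ?_
    refine ae_of_all _ fun x => ?_
    rw [hw]
    simp only [norm_mul, hnorm, one_mul, le_refl]
  have hwm' : MemLp w 2 (volume.restrict (Ioc (0 : ℝ) 1)) := by
    rwa [← restrict_Ioo_eq_restrict_Ioc]
  have hS := hasSum_sq_fourierCoeffOn zero_lt_one hwm'
  have hint : ∀ j, ∫ x, (nat j x : ℂ) * y x ∂mu = 0 := fun j => by rw [← inner_e_left, hy]
  have hcomb : ∀ (k : ℕ) (c : ℂ), ∫ x, ((nat (2 * k) x : ℂ) + c * (nat (2 * k + 1) x : ℂ)) * y x ∂mu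
      = 0 := by
    intro k c
    have : ∀ x, ((nat (2 * k) x : ℂ) + c * (nat (2 * k + 1) x : ℂ)) * y x =
        (nat (2 * k) x : ℂ) * y x + c * ((nat (2 * k + 1) x : ℂ) * y x) := fun x => by ring
    simp_rw [this]
    rw [integral_add (integrable_e_mul _ _) ((integrable_e_mul _ _).const_mul c),
      integral_const_mul, hint, hint]
    simp
  have hs2 : ((√2 : ℝ) : ℂ) ≠ 0 := by
    have : √2 ≠ 0 := by positivity
    exact_mod_cast this
  have hco : ∀ n : ℤ, fourierCoeffOn zero_lt_one w n = 0 := by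
    intro n
    rw [fourierCoeffOn_eq_integral, ← integral_mu]
    have key : ∃ (k : ℕ) (c : ℂ), ∀ x : ℝ,
        (fourier (-n) (x : AddCircle ((1 : ℝ) - 0)) : ℂ) • w x =
        (1 / ((√2 : ℝ) : ℂ)) * (((nat (2 * k) x : ℂ) + c * (nat (2 * k + 1) x : ℂ)) * y x) := by
      rcases le_or_gt n 0 with hn | hn
      · obtain ⟨k, hk⟩ := Int.eq_ofNat_of_zero_le (show 0 ≤ -n by omega)
        refine ⟨k, Complex.I, fun x => ?_⟩
        rw [fourier_coe_apply, nat_even, nat_odd, hw, smul_eq_mul]
        have h1 : Complex.exp (2 * π * Complex.I * ((-n : ℤ) : ℂ) * x / ((1 - 0 : ℝ) : ℂ)) *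
            Complex.exp (Complex.I * π * x) =
            ((Real.cos ((2 * k + 1) * π * x) : ℝ) : ℂ) +
              ((Real.sin ((2 * k + 1) * π * x) : ℝ) : ℂ) * Complex.I := by
          rw [← Complex.exp_add, Complex.ofReal_cos, Complex.ofReal_sin, ← Complex.exp_mul_I, hk]
          congr 1
          push_cast
          ring
        push_cast at h1 ⊢
        rw [← mul_assoc, h1]
        field_simp
      · obtain ⟨k, hk⟩ := Int.eq_ofNat_of_zero_le (show 0 ≤ n - 1 by omega)
        refine ⟨k, -Complex.I, fun x => ?_⟩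
        rw [fourier_coe_apply, nat_even, nat_odd, hw, smul_eq_mul]
        have h1 : Complex.exp (2 * π * Complex.I * ((-n : ℤ) : ℂ) * x / ((1 - 0 : ℝ) : ℂ)) *
            Complex.exp (Complex.I * π * x) =
            ((Real.cos ((2 * k + 1) * π * x) : ℝ) : ℂ) -
              ((Real.sin ((2 * k + 1) * π * x) : ℝ) : ℂ) * Complex.I := by
          have hn' : n = k + 1 := by omega
          have h2 : ((Real.cos ((2 * k + 1) * π * x) : ℝ) : ℂ) -
              ((Real.sin ((2 * k + 1) * π * x) : ℝ) : ℂ) * Complex.I =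
              ((Real.cos (-((2 * k + 1) * π * x)) : ℝ) : ℂ) +
              ((Real.sin (-((2 * k + 1) * π * x)) : ℝ) : ℂ) * Complex.I := by
            rw [Real.cos_neg, Real.sin_neg]
            push_cast
            ring
          rw [h2, ← Complex.exp_add, Complex.ofReal_cos, Complex.ofReal_sin, ← Complex.exp_mul_I,
            hn']
          congr 1
          push_cast
          ring
        push_cast at h1 ⊢
        rw [← mul_assoc, h1]
        field_simp
        ring
    obtain ⟨k, c, hk⟩ := key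
    simp_rw [hk]
    rw [integral_const_mul, hcomb]
    simp
  have hz : HasSum (fun _ : ℤ => (0 : ℝ)) ((1 - 0 : ℝ)⁻¹ • ∫ x in (0 : ℝ)..1, ‖w x‖ ^ 2) := by
    simpa [hco] using hS
  have h0 : ∫ x, ‖w x‖ ^ 2 ∂mu = 0 := by
    rw [integral_mu]
    have := hz.unique hasSum_zero
    simpa using this
  have h1 : ∀ᵐ x ∂mu, ‖w x‖ ^ 2 = 0 := by
    have hi : Integrable (fun x => ‖w x‖ ^ 2) mu := hwm.integrable_norm_pow (by norm_num)
    have := (integral_eq_zero_iff_of_nonneg (f := fun x => ‖w x‖ ^ 2) (fun x => sq_nonneg _)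
      hi).1 h0
    filter_upwards [this] with x hx using hx
  rw [Lp.eq_zero_iff_ae_eq_zero]
  filter_upwards [h1] with x hx
  have h2 : w x = 0 := by
    have := pow_eq_zero_iff (two_ne_zero) |>.1 hx
    exact norm_eq_zero.1 this
  rw [hw] at h2
  rcases mul_eq_zero.1 h2 with h3 | h3
  · exact absurd h3 (Complex.exp_ne_zero _)
  · simpa using h3

end Pool.Agent.R190.Bang
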