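import Mathlib

set_option autoImplicit false

/-!
# Bang-bang property of optimal observation profiles (MP_325d65_an): definitions

`Ω = (0,1)` (so `d = 1`), `q = 1`. The state space is `L²(Ω, ℂ)`. A strongly continuous semigroup
`S` on it has the generator `-A₀`; the state equation `∂ₜ y + A₀ y = 0`, `y(0) = y⁰` has the
solution `y(t) = S(t) y⁰`.
-/

open MeasureTheory Set Filter Topology

namespace Pool.Agent.R190.Bang

/-- Lebesgue measure on `Ω = (0,1)`. -/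
noncomputable abbrev mu : Measure ℝ := volume.restrict (Ioo (0 : ℝ) 1)

/-- The state space `L²(Ω, ℂ)`. -/
abbrev L2 : Type := Lp ℂ 2 mu

/-- `S` is a strongly continuous semigroup on `L²(Ω, ℂ)`. -/
structure IsC0 (S : ℝ → L2 →L[ℂ] L2) : Prop where
  zero : S 0 = ContinuousLinearMap.id ℂ L2
  add : ∀ s t : ℝ, 0 ≤ s → 0 ≤ t → S (s + t) = (S s).comp (S t)
  cont : ∀ y, ContinuousOn (fun t => S t y) (Ici 0)

/-- `Gen S y z`: `y ∈ D(A₀)` and `A₀ y = z`, where `-A₀` is the generator of the semigroup `S`,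
that is `-z` is the derivative of `t ↦ S(t) y` at `t = 0` from the right. -/
def Gen (S : ℝ → L2 →L[ℂ] L2) (y z : L2) : Prop :=
  HasDerivWithinAt (fun t : ℝ => S t y) (-z) (Ici 0) 0

/-- Hypothesis (H1): `φ` is a Hilbert basis of eigenfunctions of `A₀` with eigenvalues `lam j`,
the real parts are nondecreasing and tend to infinity. -/
structure H1 (S : ℝ → L2 →L[ℂ] L2) (φ : HilbertBasis ℕ ℂ L2) (lam : ℕ → ℂ) : Prop where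
  eig : ∀ j, Gen S (φ j) (lam j • φ j)
  mono : Monotone fun j => (lam j).re
  tend : Tendsto (fun j => (lam j).re) atTop atTop

/-- Hypothesis (H2): each `φ j` is (the class of) an analytic function `f j` on `Ω`. -/
def H2 (φ : HilbertBasis ℕ ℂ L2) (f : ℕ → ℝ → ℂ) : Prop :=
  ∀ j, AnalyticOnNhd ℝ (f j) (Ioo 0 1) ∧ (φ j : ℝ → ℂ) =ᵐ[mu] f j

/-- The function `Φ = ∑_p η_p |∑_j β_{j,p} φ_j|²` of hypothesis (H_L); `J` is the index set `J₁`. -/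
noncomputable def PhiFun (f : ℕ → ℝ → ℂ) (J : Finset ℕ) (β : ℕ → ℕ → ℝ) (η : ℕ → ℝ) (x : ℝ) : ℝ :=
  ∑ p ∈ J, η p * ‖∑ j ∈ J, (β j p : ℂ) * f j x‖ ^ 2

/-- Hypothesis (H_L). `J` is the set `J₁` of all `j` with `Re λ_j = Re λ_1` (here the first index
is `0`). For all admissible `β, η` there is a level `ν > 0` with `|{Φ ≥ ν}| = L |Ω|`, and for
every such level `|Φ'|` is bounded below by a positive constant on `∂ω \ ∂Ω`, `ω = {Φ ≥ ν}`. -/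
def HL (L : ℝ) (lam : ℕ → ℂ) (f : ℕ → ℝ → ℂ) : Prop :=
  ∃ J : Finset ℕ, (∀ j, j ∈ J ↔ (lam j).re = (lam 0).re) ∧
    (∀ j ∈ J, ContDiffOn ℝ 1 (f j) (Icc 0 1)) ∧
    ∀ (β : ℕ → ℕ → ℝ) (η : ℕ → ℝ), (∃ j ∈ J, ∃ p ∈ J, β j p ≠ 0) →
      (∀ p ∈ J, 0 ≤ η p ∧ η p ≤ 1) → ∑ p ∈ J, η p = 1 →
      (∃ ν : ℝ, 0 < ν ∧
        volume {x ∈ Ioo (0 : ℝ) 1 | ν ≤ PhiFun f J β η x} = ENNReal.ofReal L) ∧
      ∀ ν : ℝ, 0 < ν → volume {x ∈ Ioo (0 : ℝ) 1 | ν ≤ PhiFun f J β η x} = ENNReal.ofReal L →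
        ∃ ε > 0, ∀ x ∈ frontier {x ∈ Ioo (0 : ℝ) 1 | ν ≤ PhiFun f J β η x} \
          frontier (Ioo (0 : ℝ) 1), ε ≤ |deriv (PhiFun f J β η) x|

/-- The set of relaxed profiles: `a ∈ L^∞(Ω; [0,1])` with `∫_Ω a = L |Ω| = L`. -/
def Prof (L : ℝ) : Set (ℝ → ℝ) :=
  {a | AEMeasurable a mu ∧ (∀ᵐ x ∂mu, 0 ≤ a x ∧ a x ≤ 1) ∧ ∫ x, a x ∂mu = L}

/-- The relaxed observability constant `C_T(a)`: the infimum over `y⁰ ∈ D(A₀) \ {0}` of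
`∫₀ᵀ ∫_Ω a |y(t,x)|² dx dt / ‖y(T)‖²`, `y(t) = S(t) y⁰`. -/
noncomputable def CT (S : ℝ → L2 →L[ℂ] L2) (T : ℝ) (a : ℝ → ℝ) : ℝ :=
  sInf {r | ∃ y z : L2, Gen S y z ∧ y ≠ 0 ∧
    r = (∫ t in (0 : ℝ)..T, ∫ x, a x * ‖(S t y) x‖ ^ 2 ∂mu) / ‖S T y‖ ^ 2}

/-- `a` is an optimal profile: a maximiser of `C_T` over the relaxed profiles. -/
def IsOptimal (S : ℝ → L2 →L[ℂ] L2) (T L : ℝ) (a : ℝ → ℝ) : Prop :=
  a ∈ Prof L ∧ ∀ a' ∈ Prof L, CT S T a' ≤ CT S T a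

end Pool.Agent.R190.Bang
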