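import Pool.Agent.R190.Bang.Main

set_option autoImplicit false

open MeasureTheory Set Filter Topology Real
open scoped InnerProductSpace

namespace Pool.Agent.R190.Bang

lemma two_cos_sq (x : ℝ) : 2 * Real.cos (π * x) ^ 2 = 1 + Real.cos (2 * π * x) := by
  have : (2 * π * x : ℝ) = 2 * (π * x) := by ring
  rw [this, Real.cos_two_mul]
  ring

lemma two_sin_sq (x : ℝ) : 2 * Real.sin (π * x) ^ 2 = 1 - Real.cos (2 * π * x) := by
  have : (2 * π * x : ℝ) = 2 * (π * x) := by ring
  have h := Real.sin_sq_add_cos_sq (π * x)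
  rw [this, Real.cos_two_mul]
  linarith

lemma norm_f0 (x : ℝ) : ‖f 0 x‖ ^ 2 = 1 + Real.cos (2 * π * x) := by
  rw [f0, Complex.norm_real, Real.norm_eq_abs, sq_abs, mul_pow, Real.sq_sqrt (by norm_num),
    two_cos_sq]

lemma norm_f1 (x : ℝ) : ‖f 1 x‖ ^ 2 = 1 - Real.cos (2 * π * x) := by
  rw [f1, Complex.norm_real, Real.norm_eq_abs, sq_abs, mul_pow, Real.sq_sqrt (by norm_num),
    two_sin_sq]

lemma level_set {L : ℝ} (hL0 : 0 < L) (hL1 : L < 1) (x : ℝ) (hx : x ∈ Ioo (0 : ℝ) 1) :
    Real.cos (π * L) ≤ Real.cos (2 * π * x) ↔ x ≤ L / 2 ∨ 1 - L / 2 ≤ x := by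
  have hpi := Real.pi_pos
  have hLm : π * L ∈ Icc 0 π := ⟨by positivity, by nlinarith⟩
  rcases le_or_gt x (1 / 2) with h | h
  · have hm : 2 * π * x ∈ Icc 0 π := ⟨by have := hx.1; positivity, by nlinarith⟩
    rw [Real.strictAntiOn_cos.le_iff_ge hLm hm]
    constructor
    · intro h1
      left
      nlinarith
    · rintro (h1 | h1)
      · nlinarith
      · nlinarith
  · have hm : 2 * π * (1 - x) ∈ Icc 0 π :=
      ⟨by have := hx.2; have : 0 < 1 - x := by linarith
          positivity, by nlinarith⟩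
    have hc : Real.cos (2 * π * x) = Real.cos (2 * π * (1 - x)) := by
      have : 2 * π * (1 - x) = 2 * π - 2 * π * x := by ring
      rw [this, Real.cos_two_pi_sub]
    rw [hc, Real.strictAntiOn_cos.le_iff_ge hLm hm]
    constructor
    · intro h1
      right
      nlinarith
    · rintro (h1 | h1)
      · nlinarith
      · nlinarith

lemma vol_level {L : ℝ} (hL0 : 0 < L) (hL1 : L < 1) :
    volume {x ∈ Ioo (0 : ℝ) 1 | Real.cos (π * L) ≤ Real.cos (2 * π * x)} = ENNReal.ofReal L := by
  have h : {x ∈ Ioo (0 : ℝ) 1 | Real.cos (π * L) ≤ Real.cos (2 * π * x)} =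
      Ioc 0 (L / 2) ∪ Ico (1 - L / 2) 1 := by
    ext x
    simp only [mem_ofPred_eq, mem_union]
    constructor
    · rintro ⟨hx, h⟩
      rcases (level_set hL0 hL1 x hx).1 h with h1 | h1
      · left; exact ⟨hx.1, h1⟩
      · right; exact ⟨h1, hx.2⟩
    · rintro (h1 | h1)
      · have hx : x ∈ Ioo (0 : ℝ) 1 := ⟨h1.1, by have := h1.2; linarith⟩
        exact ⟨hx, (level_set hL0 hL1 x hx).2 (Or.inl h1.2)⟩
      · have hx : x ∈ Ioo (0 : ℝ) 1 := ⟨by have := h1.1; linarith, h1.2⟩
        exact ⟨hx, (level_set hL0 hL1 x hx).2 (Or.inr h1.1)⟩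
  rw [h, measure_union _ measurableSet_Ico, Real.volume_Ioc, Real.volume_Ico,
    ← ENNReal.ofReal_add (by linarith) (by linarith)]
  · congr 1; ring
  · rw [Set.disjoint_left]
    intro x h1 h2
    have := h1.2
    have := h2.1
    linarith

lemma hl {β : ℝ} (hβ : 0 < β) (T : ℝ) {L : ℝ} (hL0 : 0 < L) (hL1 : L < 1) :
    HL L (lamf β T) f := by
  refine ⟨{0}, fun j => ?_, ?_, ?_⟩
  · rw [Finset.mem_singleton, lamf_re, lamf_re]
    constructor
    · rintro rfl; rfl
    · intro h
      by_contra hj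
      have hj' : (0 : ℝ) ≤ j := Nat.cast_nonneg j
      rw [if_neg hj, if_pos rfl] at h
      split_ifs at h <;> linarith
  · intro j hj
    rw [Finset.mem_singleton] at hj
    subst hj
    have h : f 0 = fun x => ((√2 * Real.cos (π * x) : ℝ) : ℂ) := funext f0
    rw [h]
    apply ContDiff.contDiffOn
    have h1 : ContDiff ℝ 1 fun x : ℝ => √2 * Real.cos (π * x) := by fun_prop
    exact Complex.ofRealCLM.contDiff.comp h1
  · intro b' η hne _ hsum
    have hb' : b' 0 0 ≠ 0 := by
      obtain ⟨j, hj, p, hp, h⟩ := hne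
      rw [Finset.mem_singleton] at hj hp
      rwa [hj, hp] at h
    rw [Finset.sum_singleton] at hsum
    set c : ℝ := b' 0 0 ^ 2 with hc
    have hc0 : 0 < c := by positivity
    have hPhi : PhiFun f {0} b' η = fun x => c * (1 + Real.cos (2 * π * x)) := by
      funext x
      rw [PhiFun, Finset.sum_singleton, Finset.sum_singleton, hsum, norm_mul, mul_pow, norm_f0,
        Complex.norm_real, Real.norm_eq_abs, sq_abs, one_mul]
    rw [hPhi]
    constructor
    · have hcos : -1 < Real.cos (π * L) := by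
        have hpi := Real.pi_pos
        have := Real.strictAntiOn_cos (a := π * L) (b := π) ⟨by positivity, by nlinarith⟩
          ⟨hpi.le, le_rfl⟩ (by nlinarith)
        rwa [Real.cos_pi] at this
      refine ⟨c * (1 + Real.cos (π * L)), by nlinarith [mul_pos hc0 (show 0 < 1 + Real.cos (π * L) by linarith)], ?_⟩
      rw [← vol_level hL0 hL1]
      congr 1
      ext x
      simp only [mem_ofPred_eq, and_congr_right_iff]
      intro _
      rw [mul_le_mul_iff_right₀ hc0]
      constructor <;> intro h <;> linarith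
    · intro ν hν hvol
      set κ : ℝ := ν / c - 1 with hκ
      have hνc : ν = c * (1 + κ) := by rw [hκ]; field_simp; ring
      have hk1 : -1 < κ := by
        have : 0 < ν / c := by positivity
        rw [hκ]; linarith
      have hk2 : κ < 1 := by
        by_contra hcon
        push Not at hcon
        have he : {x ∈ Ioo (0 : ℝ) 1 | ν ≤ c * (1 + Real.cos (2 * π * x))} = ∅ := by
          rw [Set.eq_empty_iff_forall_notMem]
          rintro x ⟨hx, h⟩
          rw [hνc, mul_le_mul_iff_right₀ hc0] at h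
          have h1 : Real.cos (2 * π * x) = 1 := le_antisymm (Real.cos_le_one _) (by linarith)
          have hpi := Real.pi_pos
          rw [Real.cos_eq_one_iff] at h1
          obtain ⟨n, hn⟩ := h1
          have h2 : (n : ℝ) = x := by
            have : (n : ℝ) * (2 * π) = x * (2 * π) := by rw [hn]; ring
            exact mul_right_cancel₀ (by positivity) this
          rw [← h2] at hx
          have h3 : (0 : ℤ) < n := by exact_mod_cast hx.1
          have h4 : n < (1 : ℤ) := by exact_mod_cast hx.2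
          omega
        simp only at hvol
        rw [he, measure_empty] at hvol
        have := ENNReal.ofReal_pos.2 hL0
        rw [← hvol] at this
        exact lt_irrefl _ this
      have hk : 0 < 1 - κ ^ 2 := by nlinarith
      refine ⟨c * (2 * π * √(1 - κ ^ 2)), by positivity, ?_⟩
      rintro x ⟨hx1, hx2⟩
      have hcont : Continuous fun x : ℝ => c * (1 + Real.cos (2 * π * x)) := by fun_prop
      have hxI : x ∈ Ioo (0 : ℝ) 1 := by
        have h1 : x ∈ closure (Ioo (0 : ℝ) 1) :=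
          closure_mono (fun y hy => hy.1) (frontier_subset_closure hx1)
        rw [closure_Ioo (by norm_num)] at h1
        rw [frontier_Ioo (by norm_num)] at hx2
        simp only [mem_insert_iff, mem_singleton_iff, not_or] at hx2
        exact ⟨lt_of_le_of_ne h1.1 (Ne.symm hx2.1), lt_of_le_of_ne h1.2 hx2.2⟩
      have hge : ν ≤ c * (1 + Real.cos (2 * π * x)) := by
        have hcl : IsClosed {y : ℝ | ν ≤ c * (1 + Real.cos (2 * π * y))} :=
          isClosed_le continuous_const hcont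
        exact closure_minimal (fun y hy => hy.2) hcl (frontier_subset_closure hx1)
      have hle : c * (1 + Real.cos (2 * π * x)) ≤ ν := by
        by_contra hcon
        push Not at hcon
        have hopen : IsOpen (Ioo (0 : ℝ) 1 ∩ {y : ℝ | ν < c * (1 + Real.cos (2 * π * y))}) :=
          isOpen_Ioo.inter (isOpen_lt continuous_const hcont)
        have hint : x ∈ interior {y ∈ Ioo (0 : ℝ) 1 | ν ≤ c * (1 + Real.cos (2 * π * y))} := by
          refine interior_maximal ?_ hopen ⟨hxI, hcon⟩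
          rintro y ⟨hy1, hy2⟩
          exact ⟨hy1, le_of_lt hy2⟩
        exact hx1.2 hint
      have heq : Real.cos (2 * π * x) = κ := by
        have h1 : c * (1 + Real.cos (2 * π * x)) = c * (1 + κ) := by
          rw [← hνc]; exact le_antisymm hle hge
        have := mul_left_cancel₀ hc0.ne' h1
        linarith
      have hd : HasDerivAt (fun x : ℝ => c * (1 + Real.cos (2 * π * x)))
          (c * (-Real.sin (2 * π * x) * (2 * π))) x := by
        have h1 : HasDerivAt (fun x : ℝ => 2 * π * x) (2 * π) x := by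
          simpa using (hasDerivAt_id x).const_mul (2 * π)
        exact (h1.cos.const_add 1).const_mul c
      rw [hd.deriv]
      have hs : |Real.sin (2 * π * x)| = √(1 - κ ^ 2) := by
        rw [← heq, Real.abs_sin_eq_sqrt_one_sub_cos_sq]
      rw [abs_mul, abs_mul, abs_neg, hs, abs_of_pos hc0, abs_of_pos (by positivity : 0 < 2 * π)]
      apply le_of_eq
      ring

lemma prof_integrable {L : ℝ} {a : ℝ → ℝ} (ha : a ∈ Prof L) : Integrable a mu := by
  refine Integrable.of_bound ha.1.aestronglyMeasurable 1 ?_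
  filter_upwards [ha.2.1] with x hx
  rw [Real.norm_eq_abs, abs_of_nonneg hx.1]
  exact hx.2

lemma prof_cos_integrable {L : ℝ} {a : ℝ → ℝ} (ha : a ∈ Prof L) :
    Integrable (fun x => a x * Real.cos (2 * π * x)) mu := by
  have hc : Continuous fun x : ℝ => Real.cos (2 * π * x) := by fun_prop
  refine Integrable.of_bound (ha.1.aestronglyMeasurable.mul hc.aestronglyMeasurable) 1 ?_
  filter_upwards [ha.2.1] with x hx
  rw [Real.norm_eq_abs, abs_mul, abs_of_nonneg hx.1]
  have := Real.abs_cos_le_one (2 * π * x)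
  have h0 := abs_nonneg (Real.cos (2 * π * x))
  nlinarith [hx.1, hx.2]

section

variable {β : ℝ} (hβ : 0 < β) {T : ℝ}

lemma int_B0 {L : ℝ} {a : ℝ → ℝ} (ha : a ∈ Prof L) {t : ℝ} (ht : 0 ≤ t) :
    ∫ x, a x * ‖(SS hβ T t (B 0)) x‖ ^ 2 ∂mu =
      (L + ∫ x, a x * Real.cos (2 * π * x) ∂mu) * Real.exp (4 * β * t) := by
  have h : ∫ x, a x * ‖(SS hβ T t (B 0)) x‖ ^ 2 ∂mu =
      ∫ x, (a x + a x * Real.cos (2 * π * x)) * Real.exp (4 * β * t) ∂mu := by
    refine integral_congr_ae ?_
    rw [SS_basis hβ T ht, exp0]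
    filter_upwards [Lp.coeFn_smul ((Real.exp (2 * β * t) : ℝ) : ℂ) (B 0), B_ae 0] with x h1 h2
    have e1 : Real.exp (4 * β * t) = Real.exp (2 * β * t) ^ 2 := by
      rw [← Real.exp_nat_mul]; congr 1; push_cast; ring
    rw [h1, Pi.smul_apply, h2, smul_eq_mul, norm_mul, mul_pow, norm_f0, Complex.norm_real,
      Real.norm_eq_abs, sq_abs, e1]
    ring
  rw [h, integral_mul_const, integral_add (prof_integrable ha) (prof_cos_integrable ha), ha.2.2]

lemma int_B1 {L : ℝ} {a : ℝ → ℝ} (ha : a ∈ Prof L) {t : ℝ} (ht : 0 ≤ t) :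
    ∫ x, a x * ‖(SS hβ T t (B 1)) x‖ ^ 2 ∂mu =
      (L - ∫ x, a x * Real.cos (2 * π * x) ∂mu) * Real.exp (2 * β * t) := by
  have h : ∫ x, a x * ‖(SS hβ T t (B 1)) x‖ ^ 2 ∂mu =
      ∫ x, (a x - a x * Real.cos (2 * π * x)) * Real.exp (2 * β * t) ∂mu := by
    refine integral_congr_ae ?_
    rw [SS_basis hβ T ht, exp1]
    filter_upwards [Lp.coeFn_smul ((Real.exp (β * t) : ℝ) : ℂ) (B 1), B_ae 1] with x h1 h2
    have e1 : Real.exp (2 * β * t) = Real.exp (β * t) ^ 2 := by
      rw [← Real.exp_nat_mul]; congr 1; push_cast; ring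
    rw [h1, Pi.smul_apply, h2, smul_eq_mul, norm_mul, mul_pow, norm_f1, Complex.norm_real,
      Real.norm_eq_abs, sq_abs, e1]
    ring
  rw [h, integral_mul_const, integral_sub (prof_integrable ha) (prof_cos_integrable ha), ha.2.2]

lemma CT_le {L : ℝ} {a : ℝ → ℝ} (ha : a ∈ Prof L) (hT : 0 < T) (j : ℕ) :
    CT (SS hβ T) T a ≤ (∫ t in (0 : ℝ)..T, ∫ x, a x * ‖(SS hβ T t (B j)) x‖ ^ 2 ∂mu) /
      ‖SS hβ T T (B j)‖ ^ 2 := by
  refine csInf_le ⟨0, ?_⟩ ⟨B j, lamf β T j • B j, (SS_h1 hβ T).eig j, ?_, rfl⟩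
  · rintro r ⟨y, z, -, -, rfl⟩
    refine div_nonneg ?_ (by positivity)
    refine intervalIntegral.integral_nonneg hT.le fun t _ => ?_
    refine integral_nonneg_of_ae ?_
    filter_upwards [ha.2.1] with x hx
    simp only [Pi.zero_apply]
    have := hx.1
    positivity
  · exact B.orthonormal.ne_zero j

lemma CT_le0 {L X : ℝ} {a : ℝ → ℝ} (ha : a ∈ Prof L) (hT : 0 < T)
    (hX : Real.exp (2 * β * T) = X) :
    CT (SS hβ T) T a ≤ (L + ∫ x, a x * Real.cos (2 * π * x) ∂mu) * ((X ^ 2 - 1) / (4 * β)) /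
      X ^ 2 := by
  refine (CT_le hβ ha hT 0).trans (le_of_eq ?_)
  have hX2 : Real.exp (4 * β * T) = X ^ 2 := by
    rw [← hX, ← Real.exp_nat_mul]; congr 1; push_cast; ring
  congr 1
  · have h : ∫ t in (0 : ℝ)..T, ∫ x, a x * ‖(SS hβ T t (B 0)) x‖ ^ 2 ∂mu =
        ∫ t in (0 : ℝ)..T, (L + ∫ x, a x * Real.cos (2 * π * x) ∂mu) * Real.exp (4 * β * t) := by
      refine intervalIntegral.integral_congr fun t ht => ?_
      rw [uIcc_of_le hT.le] at ht
      exact int_B0 hβ ha ht.1
    rw [h, intervalIntegral.integral_const_mul, int_exp (by positivity), hX2]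
  · rw [SS_basis hβ T hT.le, exp0, norm_smul, Complex.norm_real,
      Real.norm_of_nonneg (Real.exp_nonneg _), hX, B.orthonormal.1 0, mul_one]

lemma CT_le1 {L X : ℝ} {a : ℝ → ℝ} (ha : a ∈ Prof L) (hT : 0 < T)
    (hX : Real.exp (2 * β * T) = X) :
    CT (SS hβ T) T a ≤ (L - ∫ x, a x * Real.cos (2 * π * x) ∂mu) * ((X - 1) / (2 * β)) /
      X := by
  refine (CT_le hβ ha hT 1).trans (le_of_eq ?_)
  congr 1
  · have h : ∫ t in (0 : ℝ)..T, ∫ x, a x * ‖(SS hβ T t (B 1)) x‖ ^ 2 ∂mu =
        ∫ t in (0 : ℝ)..T, (L - ∫ x, a x * Real.cos (2 * π * x) ∂mu) * Real.exp (2 * β * t) := by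
      refine intervalIntegral.integral_congr fun t ht => ?_
      rw [uIcc_of_le hT.le] at ht
      exact int_B1 hβ ha ht.1
    rw [h, intervalIntegral.integral_const_mul, int_exp (by positivity), hX]
  · rw [SS_basis hβ T hT.le, exp1, norm_smul, Complex.norm_real,
      Real.norm_of_nonneg (Real.exp_nonneg _), B.orthonormal.1 1, mul_one, ← hX,
      ← Real.exp_nat_mul]
    congr 1; push_cast; ring

end

lemma pr_prof {L b : ℝ} (hb : 0 ≤ b) (h1 : b ≤ L) (h2 : L + b ≤ 1) : pr L b ∈ Prof L := by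
  refine ⟨(pr_cont L b).aemeasurable, ae_of_all _ fun x => ?_, ?_⟩
  · have e1 := Real.neg_one_le_cos (2 * π * x)
    have e2 := Real.cos_le_one (2 * π * x)
    rw [pr]
    constructor <;> nlinarith
  · rw [integral_mu]
    simp only [pr]
    have h := int_cos 1 one_ne_zero
    simp only [Int.cast_one, mul_one] at h
    rw [intervalIntegral.integral_add (by simp) (by apply Continuous.intervalIntegrable; fun_prop),
      intervalIntegral.integral_const_mul, h]
    simp

/-- The main theorem. -/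
theorem main (L T : ℝ) (hL0 : 0 < L) (hL1 : L < 1) (hT : 0 < T) :
    ∃ (S : ℝ → L2 →L[ℂ] L2) (φ : HilbertBasis ℕ ℂ L2) (lam : ℕ → ℂ) (f : ℕ → ℝ → ℂ),
      IsC0 S ∧ H1 S φ lam ∧ H2 φ f ∧ HL L lam f ∧ (∀ y ≠ 0, S T y ≠ 0) ∧
      ∃ a : ℝ → ℝ, Continuous a ∧ (∃ δ > 0, ∀ x, δ ≤ a x ∧ a x ≤ 1 - δ) ∧
        IsOptimal S T L a := by
  set X : ℝ := 2 - L with hXdef
  have hX1 : 1 < X := by rw [hXdef]; linarith
  set β : ℝ := Real.log X / (2 * T) with hβdef
  have hβ : 0 < β := div_pos (Real.log_pos hX1) (by positivity)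
  have hX : Real.exp (2 * β * T) = X := by
    have : 2 * β * T = Real.log X := by rw [hβdef]; field_simp
    rw [this, Real.exp_log (by linarith)]
  set b : ℝ := 2 * L * (X - 1) / (3 * X + 1) with hb
  set C : ℝ := L * (X ^ 2 - 1) / (β * X * (3 * X + 1)) with hC
  have hden : 0 < 3 * X + 1 := by linarith
  have hb0 : 0 < b := by
    rw [hb]
    have : 0 < X - 1 := by linarith
    positivity
  have hbL : b < L := by
    rw [hb, div_lt_iff₀ hden]
    nlinarith
  have hb1 : L + b < 1 := by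
    have : b < 1 - L := by
      rw [hb, div_lt_iff₀ hden, hXdef]
      nlinarith [mul_pos (sub_pos.2 hL1) (sub_pos.2 hL1)]
    linarith
  have e0 : C * X ^ 2 = (L + b / 2) * ((X ^ 2 - 1) / (4 * β)) := by
    rw [hC, hb]; field_simp; ring
  have e1 : C * X = (L - b / 2) * ((X - 1) / (2 * β)) := by
    rw [hC, hb]; field_simp; ring
  have e2 : C ≤ (L - b) * ((X - 1) / (2 * β)) := by
    have h : (L - b) * ((X - 1) / (2 * β)) - C =
        L * (X - 1) ^ 2 * (X + 2) / (2 * β * X * (3 * X + 1)) := by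
      rw [hC, hb]; field_simp; ring
    have h' : 0 ≤ L * (X - 1) ^ 2 * (X + 2) / (2 * β * X * (3 * X + 1)) := by
      have : 0 < X := by linarith
      positivity
    linarith
  have hpr : pr L b ∈ Prof L := pr_prof hb0.le hbL.le hb1.le
  refine ⟨SS hβ T, B, lamf β T, f, SS_c0 hβ T, SS_h1 hβ T, h2, hl hβ T hL0 hL1,
    fun y hy => SS_inj hβ T hT.le hy, pr L b, pr_cont L b, ⟨min (L - b) (1 - (L + b)), ?_, ?_⟩,
    hpr, ?_⟩
  · exact lt_min (by linarith) (by linarith)
  · intro x
    have c1 := Real.neg_one_le_cos (2 * π * x)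
    have c2 := Real.cos_le_one (2 * π * x)
    have m1 := min_le_left (L - b) (1 - (L + b))
    have m2 := min_le_right (L - b) (1 - (L + b))
    rw [pr]
    constructor <;> nlinarith
  · intro a' ha'
    have hlow : C ≤ CT (SS hβ T) T (pr L b) := by
      refine le_csInf ⟨_, B 0, lamf β T 0 • B 0, (SS_h1 hβ T).eig 0, B.orthonormal.ne_zero 0, rfl⟩ ?_
      rintro r ⟨y, z, -, hy, rfl⟩
      have hpos : 0 < ‖SS hβ T T y‖ ^ 2 := by
        have := norm_pos_iff.2 (SS_inj hβ T hT.le hy)
        positivity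
      rw [le_div_iff₀ hpos]
      exact lower hβ hT hb0.le hbL.le hX e0.le e1.le e2 y
    refine le_trans ?_ hlow
    have hXpos : 0 < X := by linarith
    rcases le_total (∫ x, a' x * Real.cos (2 * π * x) ∂mu) (b / 2) with hs | hs
    · refine (CT_le0 hβ ha' hT hX).trans ?_
      rw [div_le_iff₀ (by positivity), e0]
      refine mul_le_mul_of_nonneg_right (by linarith) ?_
      have : 0 ≤ X ^ 2 - 1 := by nlinarith
      positivity
    · refine (CT_le1 hβ ha' hT hX).trans ?_
      rw [div_le_iff₀ hXpos, e1]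
      refine mul_le_mul_of_nonneg_right (by linarith) ?_
      have : 0 ≤ X - 1 := by linarith
      positivity

end Pool.Agent.R190.Bang
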