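import Pool.Agent.R190.Bang.Mult

set_option autoImplicit false

open MeasureTheory Set Filter Topology Real
open scoped InnerProductSpace

namespace Pool.Agent.R190.Bang

lemma M_shift (L b : ℝ) (u : L2) : M L b u = ((L - b : ℝ) : ℂ) • u + M b b u := by
  apply Lp.ext
  filter_upwards [M_coe L b u, M_coe b b u, Lp.coeFn_smul ((L - b : ℝ) : ℂ) u,
    Lp.coeFn_add (((L - b : ℝ) : ℂ) • u) (M b b u)] with x h1 h2 h3 h4
  rw [h1, h4, Pi.add_apply, h3, h2, Pi.smul_apply, smul_eq_mul, pr, pr]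
  push_cast
  ring

lemma M_one (u : L2) : M 1 0 u = u := by
  apply Lp.ext
  filter_upwards [M_coe 1 0 u] with x h1
  rw [h1, pr]
  simp

lemma M_lower {L b : ℝ} (hb : 0 ≤ b) (u : L2) : (L - b) * ‖u‖ ^ 2 ≤ (⟪u, M L b u⟫_ℂ).re := by
  rw [M_shift, inner_add_right, inner_smul_right, Complex.add_re, ← M_quad]
  have h1 : 0 ≤ ∫ x, pr b b x * ‖u x‖ ^ 2 ∂mu := by
    refine integral_nonneg fun x => ?_
    have : 0 ≤ pr b b x := by
      rw [pr]
      have := Real.neg_one_le_cos (2 * π * x)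
      nlinarith
    simp only [Pi.zero_apply]
    positivity
  have h2 : (((L - b : ℝ) : ℂ) * ⟪u, u⟫_ℂ).re = (L - b) * ‖u‖ ^ 2 := by
    rw [Complex.re_ofReal_mul, inner_self_eq_norm_sq_to_K]
    norm_cast
  linarith

/-- multiplication by the profile as a bounded operator -/
noncomputable def MC (L b : ℝ) : L2 →L[ℂ] L2 :=
  LinearMap.mkContinuous { toFun := M L b, map_add' := M_add L b, map_smul' := M_smul L b }
    ‖A L b‖ (fun _ => Lp.norm_smul_le _ _)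

lemma MC_apply (L b : ℝ) (u : L2) : MC L b u = M L b u := rfl

/-- the eigenvalues -/
noncomputable def lamf (β T : ℝ) (j : ℕ) : ℂ :=
  if j = 0 then ((-(2 * β) : ℝ) : ℂ) else if j = 1 then ((-β : ℝ) : ℂ)
  else if j = 2 then ((β : ℝ) : ℂ) + ((2 * π / T : ℝ) : ℂ) * Complex.I
  else if j = 3 then ((2 * β : ℝ) : ℂ) + ((2 * π / T : ℝ) : ℂ) * Complex.I
  else ((2 * β + j : ℝ) : ℂ)

lemma lamf_re (β T : ℝ) (j : ℕ) : (lamf β T j).re =
    if j = 0 then -(2 * β) else if j = 1 then -β else if j = 2 then β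
    else if j = 3 then 2 * β else 2 * β + j := by
  unfold lamf
  split_ifs
  · exact Complex.ofReal_re _
  · exact Complex.ofReal_re _
  · rw [Complex.add_re, Complex.re_ofReal_mul, Complex.I_re, Complex.ofReal_re]; ring
  · rw [Complex.add_re, Complex.re_ofReal_mul, Complex.I_re, Complex.ofReal_re]; ring
  · exact Complex.ofReal_re _

lemma lamf_ge {β : ℝ} (hβ : 0 < β) (T : ℝ) (j : ℕ) : -(2 * β) ≤ (lamf β T j).re := by
  rw [lamf_re]
  have : (0 : ℝ) ≤ j := Nat.cast_nonneg j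
  split_ifs <;> linarith

lemma lamf_ge' {β : ℝ} (hβ : 0 < β) (T : ℝ) (j : ℕ) (h0 : j ≠ 0) (h1 : j ≠ 1) :
    β ≤ (lamf β T j).re := by
  rw [lamf_re, if_neg h0, if_neg h1]
  have : (0 : ℝ) ≤ j := Nat.cast_nonneg j
  split_ifs <;> linarith

lemma lamf_mono {β : ℝ} (hβ : 0 < β) (T : ℝ) : Monotone fun j => (lamf β T j).re := by
  refine monotone_nat_of_le_succ fun j => ?_
  rw [lamf_re, lamf_re]
  rcases j with _ | _ | _ | _ | j
  · norm_num; linarith
  · norm_num; linarith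
  · norm_num; linarith
  · norm_num
  · have h : (0 : ℝ) ≤ j := Nat.cast_nonneg j
    rw [if_neg (by omega), if_neg (by omega), if_neg (by omega), if_neg (by omega),
      if_neg (by omega), if_neg (by omega), if_neg (by omega), if_neg (by omega)]
    push_cast
    linarith

lemma lamf_tend {β : ℝ} (hβ : 0 < β) (T : ℝ) :
    Tendsto (fun j => (lamf β T j).re) atTop atTop := by
  refine tendsto_atTop_mono' atTop ?_ tendsto_natCast_atTop_atTop
  filter_upwards [eventually_ge_atTop 4] with j hj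
  rw [lamf_re, if_neg (by omega), if_neg (by omega), if_neg (by omega), if_neg (by omega)]
  linarith

/-- the semigroup -/
noncomputable def SS {β : ℝ} (hβ : 0 < β) (T t : ℝ) : L2 →L[ℂ] L2 :=
  Sg B (lamf β T) (-(2 * β)) (lamf_ge hβ T) t

section

variable {β : ℝ} (hβ : 0 < β) (T : ℝ)

lemma SS_c0 : IsC0 (SS hβ T) where
  zero := Sg_zero _ _ _ _
  add := Sg_add _ _ _ _
  cont := Sg_cont _ _ _ _

lemma SS_h1 : H1 (SS hβ T) B (lamf β T) where
  eig j := Sg_gen B (lamf β T) _ _ j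
  mono := lamf_mono hβ T
  tend := lamf_tend hβ T

lemma inner_SS {t : ℝ} (ht : 0 ≤ t) (y : L2) (j : ℕ) :
    ⟪B j, SS hβ T t y⟫_ℂ = Complex.exp (-(lamf β T j) * t) * ⟪B j, y⟫_ℂ := by
  rw [← B.repr_apply_apply, SS, repr_Sg B _ _ _ ht, B.repr_apply_apply]

lemma SS_basis {t : ℝ} (ht : 0 ≤ t) (j : ℕ) :
    SS hβ T t (B j) = Complex.exp (-(lamf β T j) * t) • B j := Sg_basis B _ _ _ ht j

lemma SS_inj {t : ℝ} (ht : 0 ≤ t) {y : L2} (hy : y ≠ 0) : SS hβ T t y ≠ 0 := by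
  intro h
  apply hy
  refine ext_repr B fun j => ?_
  have h1 := repr_Sg B (lamf β T) (-(2 * β)) (lamf_ge hβ T) ht y j
  have h2 : Sg B (lamf β T) (-(2 * β)) (lamf_ge hβ T) t y = 0 := h
  rw [h2, map_zero] at h1
  rw [map_zero]
  rcases mul_eq_zero.1 h1.symm with h3 | h3
  · exact absurd h3 (Complex.exp_ne_zero _)
  · rw [h3]; rfl

lemma exp0 (t : ℝ) : Complex.exp (-(lamf β T 0) * t) = ((Real.exp (2 * β * t) : ℝ) : ℂ) := by
  rw [Complex.ofReal_exp]
  congr 1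
  simp [lamf]

lemma exp1 (t : ℝ) : Complex.exp (-(lamf β T 1) * t) = ((Real.exp (β * t) : ℝ) : ℂ) := by
  rw [Complex.ofReal_exp]
  congr 1
  simp [lamf]

lemma exp2 (t : ℝ) : ((Real.exp (β * t) : ℝ) : ℂ) * Complex.exp (-(lamf β T 2) * t) =
    Complex.exp (-(((2 * π / T * t : ℝ) : ℂ) * Complex.I)) := by
  rw [Complex.ofReal_exp, ← Complex.exp_add]
  congr 1
  simp only [lamf]
  norm_num
  ring

lemma exp3 (t : ℝ) : ((Real.exp (2 * β * t) : ℝ) : ℂ) * Complex.exp (-(lamf β T 3) * t) =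
    Complex.exp (-(((2 * π / T * t : ℝ) : ℂ) * Complex.I)) := by
  rw [Complex.ofReal_exp, ← Complex.exp_add]
  congr 1
  simp only [lamf]
  norm_num
  ring

/-- the quadratic form along the semigroup -/
lemma quad_SS (L b : ℝ) {t : ℝ} (ht : 0 ≤ t) (c0 c1 : ℂ) (z : L2) (h0 : ⟪B 0, z⟫_ℂ = 0)
    (h1 : ⟪B 1, z⟫_ℂ = 0) :
    (⟪SS hβ T t (c0 • B 0 + c1 • B 1 + z), M L b (SS hβ T t (c0 • B 0 + c1 • B 1 + z))⟫_ℂ).re =
      Real.exp (4 * β * t) * (‖c0‖ ^ 2 * (L + b / 2)) +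
      Real.exp (2 * β * t) * (‖c1‖ ^ 2 * (L - b / 2)) +
      (⟪SS hβ T t z, M L b (SS hβ T t z)⟫_ℂ).re +
      b * ((starRingEnd ℂ c0 * ⟪B 3, z⟫_ℂ + starRingEnd ℂ c1 * ⟪B 2, z⟫_ℂ) *
        Complex.exp (-(((2 * π / T * t : ℝ) : ℂ) * Complex.I))).re := by
  rw [map_add, map_add, map_smul, map_smul, SS_basis hβ T ht, SS_basis hβ T ht, exp0, exp1,
    smul_smul, smul_smul]
  rw [quad_decomp L b _ _ _ (by rw [inner_SS hβ T ht, h0, mul_zero])
    (by rw [inner_SS hβ T ht, h1, mul_zero]), inner_SS hβ T ht, inner_SS hβ T ht]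
  have k0 : (starRingEnd ℂ) (c0 * ((Real.exp (2 * β * t) : ℝ) : ℂ)) *
      (Complex.exp (-(lamf β T 3) * t) * ⟪B 3, z⟫_ℂ) =
      starRingEnd ℂ c0 * ⟪B 3, z⟫_ℂ *
        Complex.exp (-(((2 * π / T * t : ℝ) : ℂ) * Complex.I)) := by
    rw [← exp3 (β := β) T t, map_mul, Complex.conj_ofReal]
    ring
  have k1 : (starRingEnd ℂ) (c1 * ((Real.exp (β * t) : ℝ) : ℂ)) *
      (Complex.exp (-(lamf β T 2) * t) * ⟪B 2, z⟫_ℂ) =
      starRingEnd ℂ c1 * ⟪B 2, z⟫_ℂ *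
        Complex.exp (-(((2 * π / T * t : ℝ) : ℂ) * Complex.I)) := by
    rw [← exp2 (β := β) T t, map_mul, Complex.conj_ofReal]
    ring
  rw [k0, k1, add_mul, Complex.add_re, norm_mul, norm_mul, Complex.norm_real, Complex.norm_real,
    Real.norm_of_nonneg (Real.exp_nonneg _), Real.norm_of_nonneg (Real.exp_nonneg _)]
  have e1 : Real.exp (4 * β * t) = Real.exp (2 * β * t) ^ 2 := by
    rw [← Real.exp_nat_mul]; congr 1; push_cast; ring
  have e2 : Real.exp (2 * β * t) = Real.exp (β * t) ^ 2 := by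
    rw [← Real.exp_nat_mul]; congr 1; push_cast; ring
  rw [e1]
  nth_rewrite 3 [e2]
  ring

end

end Pool.Agent.R190.Bang
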