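import Pool.Agent.R190.Bang.Lower

set_option autoImplicit false

open MeasureTheory Set Filter Topology Real
open scoped InnerProductSpace

namespace Pool.Agent.R190.Bang

lemma int_exp {c T : ℝ} (hc : c ≠ 0) :
    ∫ t in (0 : ℝ)..T, Real.exp (c * t) = (Real.exp (c * T) - 1) / c := by
  rw [intervalIntegral.integral_comp_mul_left (fun y => Real.exp y) hc, integral_exp]
  simp only [mul_zero, Real.exp_zero, smul_eq_mul]
  field_simp

lemma int_exp_rev {c T : ℝ} (hc : c ≠ 0) :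
    ∫ t in (0 : ℝ)..T, Real.exp (c * (T - t)) = (Real.exp (c * T) - 1) / c := by
  rw [intervalIntegral.integral_comp_sub_left (fun y => Real.exp (c * y)) T, sub_self, sub_zero,
    int_exp hc]

lemma int_osc {T : ℝ} (hT : 0 < T) (k : ℂ) :
    ∫ t in (0 : ℝ)..T, (k * Complex.exp (-(((2 * π / T * t : ℝ) : ℂ) * Complex.I))).re = 0 := by
  have h : ∀ t : ℝ, (k * Complex.exp (-(((2 * π / T * t : ℝ) : ℂ) * Complex.I))).re =
      k.re * Real.cos (2 * π / T * t) + k.im * Real.sin (2 * π / T * t) := by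
    intro t
    generalize 2 * π / T * t = θ
    have : -((θ : ℂ) * Complex.I) = ((-θ : ℝ) : ℂ) * Complex.I := by
      push_cast; ring
    rw [this, Complex.exp_mul_I, ← Complex.ofReal_cos, ← Complex.ofReal_sin, Real.cos_neg,
      Real.sin_neg]
    simp only [Complex.mul_re, Complex.add_re, Complex.add_im, Complex.ofReal_re,
      Complex.ofReal_im, Complex.I_re, Complex.I_im, Complex.mul_im]
    ring
  simp_rw [h]
  have hc : 2 * π / T ≠ 0 := by positivity
  have hT' : 2 * π / T * T = 2 * π := by field_simp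
  rw [intervalIntegral.integral_add (by apply Continuous.intervalIntegrable; fun_prop)
    (by apply Continuous.intervalIntegrable; fun_prop), intervalIntegral.integral_const_mul,
    intervalIntegral.integral_const_mul,
    intervalIntegral.integral_comp_mul_left (fun y => Real.cos y) hc,
    intervalIntegral.integral_comp_mul_left (fun y => Real.sin y) hc, integral_cos, integral_sin,
    hT']
  simp

lemma norm_sq_decomp (c0 c1 : ℂ) (z : L2) (h0 : ⟪B 0, z⟫_ℂ = 0) (h1 : ⟪B 1, z⟫_ℂ = 0) :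
    ‖c0 • B 0 + c1 • B 1 + z‖ ^ 2 = ‖c0‖ ^ 2 + ‖c1‖ ^ 2 + ‖z‖ ^ 2 := by
  have h := quad_decomp 1 0 c0 c1 z h0 h1
  have hn : ∀ u : L2, (⟪u, u⟫_ℂ).re = ‖u‖ ^ 2 := fun u => inner_self_eq_norm_sq (𝕜 := ℂ) u
  rw [M_one, M_one, hn, hn] at h
  linarith

section

variable {β : ℝ} (hβ : 0 < β) {T : ℝ} (hT : 0 < T)

include hT in
/-- The lower bound for the profile `L + b cos(2πx)`. -/
lemma lower {L b C X : ℝ} (hb : 0 ≤ b) (hLb : b ≤ L) (hX : Real.exp (2 * β * T) = X)
    (e0 : C * X ^ 2 ≤ (L + b / 2) * ((X ^ 2 - 1) / (4 * β)))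
    (e1 : C * X ≤ (L - b / 2) * ((X - 1) / (2 * β)))
    (e2 : C ≤ (L - b) * ((X - 1) / (2 * β))) (y : L2) :
    C * ‖SS hβ T T y‖ ^ 2 ≤ ∫ t in (0 : ℝ)..T, ∫ x, pr L b x * ‖(SS hβ T t y) x‖ ^ 2 ∂mu := by
  simp_rw [M_quad]
  set c0 := ⟪B 0, y⟫_ℂ with hc0
  set c1 := ⟪B 1, y⟫_ℂ with hc1
  obtain ⟨z, hz⟩ : ∃ z, y = c0 • B 0 + c1 • B 1 + z := ⟨y - (c0 • B 0 + c1 • B 1), by abel⟩
  have h0 : ⟪B 0, z⟫_ℂ = 0 := by
    have : z = y - (c0 • B 0 + c1 • B 1) := by rw [hz]; abel
    rw [this, inner_sub_right, inner_add_right, inner_smul_right, inner_smul_right, inner_B,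
      inner_B, ← hc0]
    simp
  have h1 : ⟪B 1, z⟫_ℂ = 0 := by
    have : z = y - (c0 • B 0 + c1 • B 1) := by rw [hz]; abel
    rw [this, inner_sub_right, inner_add_right, inner_smul_right, inner_smul_right, inner_B,
      inner_B, ← hc1]
    simp
  set k : ℂ := starRingEnd ℂ c0 * ⟪B 3, z⟫_ℂ + starRingEnd ℂ c1 * ⟪B 2, z⟫_ℂ with hk
  have hdecay : ∀ s : ℝ, 0 ≤ s → ∀ u : L2, ⟪B 0, u⟫_ℂ = 0 → ⟪B 1, u⟫_ℂ = 0 →
      ‖SS hβ T s u‖ ≤ Real.exp (-β * s) * ‖u‖ := by
    intro s hs u hu0 hu1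
    refine Sg_decay B (lamf β T) _ _ hs u fun j => ?_
    by_cases hj0 : j = 0
    · left; rw [hj0, B.repr_apply_apply, hu0]
    by_cases hj1 : j = 1
    · left; rw [hj1, B.repr_apply_apply, hu1]
    right
    exact lamf_ge' hβ T j hj0 hj1
  have hz2 : ∀ t ∈ Icc (0 : ℝ) T, Real.exp (2 * β * (T - t)) * ‖SS hβ T T z‖ ^ 2 ≤
      ‖SS hβ T t z‖ ^ 2 := by
    intro t ht
    have h2 : SS hβ T T z = SS hβ T (T - t) (SS hβ T t z) := by
      have := (SS_c0 hβ T).add (T - t) t (by linarith [ht.2]) ht.1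
      rw [sub_add_cancel] at this
      rw [this]
      rfl
    have h3 := hdecay (T - t) (by linarith [ht.2]) (SS hβ T t z)
      (by rw [inner_SS hβ T ht.1, h0, mul_zero]) (by rw [inner_SS hβ T ht.1, h1, mul_zero])
    rw [← h2] at h3
    have h4 : ‖SS hβ T T z‖ ^ 2 ≤ (Real.exp (-β * (T - t)) * ‖SS hβ T t z‖) ^ 2 :=
      pow_le_pow_left₀ (norm_nonneg _) h3 2
    have h5 : Real.exp (2 * β * (T - t)) * Real.exp (-β * (T - t)) ^ 2 = 1 := by
      rw [← Real.exp_nat_mul, ← Real.exp_add]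
      have : 2 * β * (T - t) + ((2 : ℕ) : ℝ) * (-β * (T - t)) = 0 := by push_cast; ring
      rw [this, Real.exp_zero]
    calc Real.exp (2 * β * (T - t)) * ‖SS hβ T T z‖ ^ 2
        ≤ Real.exp (2 * β * (T - t)) * (Real.exp (-β * (T - t)) * ‖SS hβ T t z‖) ^ 2 :=
          mul_le_mul_of_nonneg_left h4 (Real.exp_nonneg _)
      _ = (Real.exp (2 * β * (T - t)) * Real.exp (-β * (T - t)) ^ 2) * ‖SS hβ T t z‖ ^ 2 := by
          ring
      _ = ‖SS hβ T t z‖ ^ 2 := by rw [h5, one_mul]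
  have hcont : ContinuousOn (fun t => (⟪SS hβ T t y, M L b (SS hβ T t y)⟫_ℂ).re) (uIcc 0 T) := by
    have h2 : ContinuousOn (fun t => SS hβ T t y) (uIcc 0 T) := by
      refine ((SS_c0 hβ T).cont y).mono ?_
      rw [uIcc_of_le hT.le]
      exact fun t ht => ht.1
    have h3 : ContinuousOn (fun t => MC L b (SS hβ T t y)) (uIcc 0 T) :=
      (MC L b).continuous.comp_continuousOn h2
    exact Complex.continuous_re.comp_continuousOn (h2.inner h3)
  set g : ℝ → ℝ := fun t => (‖c0‖ ^ 2 * (L + b / 2)) * Real.exp (4 * β * t) +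
      (‖c1‖ ^ 2 * (L - b / 2)) * Real.exp (2 * β * t) +
      ((L - b) * ‖SS hβ T T z‖ ^ 2) * Real.exp (2 * β * (T - t)) +
      b * (k * Complex.exp (-(((2 * π / T * t : ℝ) : ℂ) * Complex.I))).re with hg
  have hosc : Continuous fun t : ℝ =>
      (k * Complex.exp (-(((2 * π / T * t : ℝ) : ℂ) * Complex.I))).re := by
    have : Continuous fun t : ℝ => k * Complex.exp (-(((2 * π / T * t : ℝ) : ℂ) * Complex.I)) := by
      fun_prop
    exact Complex.continuous_re.comp this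
  have hgc : Continuous g := by
    have h1 : Continuous fun t : ℝ => (‖c0‖ ^ 2 * (L + b / 2)) * Real.exp (4 * β * t) := by fun_prop
    have h2 : Continuous fun t : ℝ => (‖c1‖ ^ 2 * (L - b / 2)) * Real.exp (2 * β * t) := by fun_prop
    have h3 : Continuous fun t : ℝ => ((L - b) * ‖SS hβ T T z‖ ^ 2) *
      Real.exp (2 * β * (T - t)) := by fun_prop
    exact ((h1.add h2).add h3).add (continuous_const.mul hosc)
  have hle : ∀ t ∈ Icc (0 : ℝ) T, g t ≤ (⟪SS hβ T t y, M L b (SS hβ T t y)⟫_ℂ).re := by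
    intro t ht
    rw [hz, quad_SS hβ T L b ht.1 c0 c1 z h0 h1, ← hk, hg]
    have h2 := M_lower (L := L) hb (SS hβ T t z)
    have h3 := mul_le_mul_of_nonneg_left (hz2 t ht) (sub_nonneg.2 hLb)
    simp only
    linarith
  have hgi : IntervalIntegrable g volume 0 T := hgc.intervalIntegrable 0 T
  have hfi : IntervalIntegrable (fun t => (⟪SS hβ T t y, M L b (SS hβ T t y)⟫_ℂ).re) volume 0 T :=
    hcont.intervalIntegrable
  have hmono := intervalIntegral.integral_mono_on hT.le hgi hfi hle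
  refine le_trans ?_ hmono
  have hint : ∫ t in (0 : ℝ)..T, g t = (‖c0‖ ^ 2 * (L + b / 2)) * ((X ^ 2 - 1) / (4 * β)) +
      (‖c1‖ ^ 2 * (L - b / 2)) * ((X - 1) / (2 * β)) +
      ((L - b) * ‖SS hβ T T z‖ ^ 2) * ((X - 1) / (2 * β)) := by
    rw [hg]
    have i1 : IntervalIntegrable (fun t : ℝ => (‖c0‖ ^ 2 * (L + b / 2)) * Real.exp (4 * β * t))
        volume 0 T := by apply Continuous.intervalIntegrable; fun_prop
    have i2 : IntervalIntegrable (fun t : ℝ => (‖c1‖ ^ 2 * (L - b / 2)) * Real.exp (2 * β * t))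
        volume 0 T := by apply Continuous.intervalIntegrable; fun_prop
    have i3 : IntervalIntegrable (fun t : ℝ => ((L - b) * ‖SS hβ T T z‖ ^ 2) *
        Real.exp (2 * β * (T - t))) volume 0 T := by
      apply Continuous.intervalIntegrable; fun_prop
    have i4 : IntervalIntegrable (fun t : ℝ =>
        b * (k * Complex.exp (-(((2 * π / T * t : ℝ) : ℂ) * Complex.I))).re) volume 0 T :=
      (continuous_const.mul hosc).intervalIntegrable 0 T
    have i12 := i1.add i2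
    have i123 := i12.add i3
    rw [intervalIntegral.integral_add i123 i4,
      intervalIntegral.integral_add i12 i3, intervalIntegral.integral_add i1 i2,
      intervalIntegral.integral_const_mul, intervalIntegral.integral_const_mul,
      intervalIntegral.integral_const_mul, intervalIntegral.integral_const_mul,
      int_exp (by positivity), int_exp (by positivity), int_exp_rev (by positivity), int_osc hT,
      hX]
    have hX2 : Real.exp (4 * β * T) = X ^ 2 := by
      rw [← hX, ← Real.exp_nat_mul]; congr 1; push_cast; ring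
    rw [hX2]
    ring
  rw [hint]
  have hST : ‖SS hβ T T y‖ ^ 2 = ‖c0‖ ^ 2 * X ^ 2 + ‖c1‖ ^ 2 * X + ‖SS hβ T T z‖ ^ 2 := by
    rw [hz, map_add, map_add, map_smul, map_smul, SS_basis hβ T hT.le, SS_basis hβ T hT.le, exp0,
      exp1, smul_smul, smul_smul, norm_sq_decomp _ _ _ (by rw [inner_SS hβ T hT.le, h0, mul_zero])
      (by rw [inner_SS hβ T hT.le, h1, mul_zero]), norm_mul, norm_mul, Complex.norm_real,
      Complex.norm_real, Real.norm_of_nonneg (Real.exp_nonneg _),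
      Real.norm_of_nonneg (Real.exp_nonneg _), hX]
    have e2 : Real.exp (β * T) ^ 2 = X := by
      rw [← hX, ← Real.exp_nat_mul]; congr 1; push_cast; ring
    rw [mul_pow, mul_pow, e2]
  rw [hST]
  have a0 := mul_le_mul_of_nonneg_left e0 (sq_nonneg ‖c0‖)
  have a1 := mul_le_mul_of_nonneg_left e1 (sq_nonneg ‖c1‖)
  have a2 := mul_le_mul_of_nonneg_left e2 (sq_nonneg ‖SS hβ T T z‖)
  linarith

end

end Pool.Agent.R190.Bang
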