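import Pool.Agent.R190.Bang.Semi

set_option autoImplicit false

open MeasureTheory Set Filter Topology Real
open scoped InnerProductSpace

namespace Pool.Agent.R190.Bang

noncomputable def sg : Equiv.Perm ℕ := Equiv.swap 2 3

lemma sg0 : sg 0 = 0 := by decide
lemma sg1 : sg 1 = 1 := by decide
lemma sg2 : sg 2 = 3 := by decide
lemma sg3 : sg 3 = 2 := by decide

/-- The Hilbert basis. -/
noncomputable def B : HilbertBasis ℕ ℂ L2 :=
  HilbertBasis.mkOfOrthogonalEqBot (v := fun j => e (sg j)) (e_orth.comp sg sg.injective) (by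
    rw [Submodule.eq_bot_iff]
    intro y hy
    rw [Submodule.mem_orthogonal] at hy
    refine eq_zero_of_inner y fun j => ?_
    refine hy _ (Submodule.subset_span ⟨sg.symm j, ?_⟩)
    simp)

lemma B_apply (j : ℕ) : B j = e (sg j) := by
  rw [B, HilbertBasis.coe_mkOfOrthogonalEqBot]

/-- The eigenfunctions. -/
noncomputable def f (j : ℕ) (x : ℝ) : ℂ := (nat (sg j) x : ℂ)

lemma B_ae (j : ℕ) : (B j : ℝ → ℂ) =ᵐ[mu] f j := by
  rw [B_apply]
  exact e_coe _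

lemma h2 : H2 B f := by
  intro j
  refine ⟨?_, B_ae j⟩
  intro x _
  have h : AnalyticAt ℝ (nat (sg j)) x := by
    unfold nat
    split_ifs
    · exact analyticAt_const.mul ((Real.analyticAt_cos).comp
        ((analyticAt_const).mul analyticAt_id))
    · exact analyticAt_const.mul ((Real.analyticAt_sin).comp
        ((analyticAt_const).mul analyticAt_id))
  exact (Complex.ofRealCLM.analyticAt _).comp h

/-- profile `L + b cos(2πx)` -/
noncomputable def pr (L b : ℝ) (x : ℝ) : ℝ := L + b * Real.cos (2 * π * x)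

lemma pr_cont (L b : ℝ) : Continuous (pr L b) := by unfold pr; fun_prop

lemma pr_mem (L b : ℝ) : MemLp (fun x => (pr L b x : ℂ)) ⊤ mu := by
  refine memLp_top_of_bound ?_ (|L| + |b|) (ae_of_all _ fun x => ?_)
  · exact (Complex.continuous_ofReal.comp (pr_cont L b)).aestronglyMeasurable
  · rw [Complex.norm_real, Real.norm_eq_abs, pr]
    refine (abs_add_le _ _).trans ?_
    rw [abs_mul]
    have := Real.abs_cos_le_one (2 * π * x)
    have h0 := abs_nonneg b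
    nlinarith

noncomputable def A (L b : ℝ) : Lp ℂ ⊤ mu := (pr_mem L b).toLp

/-- multiplication by the profile -/
noncomputable def M (L b : ℝ) (u : L2) : L2 := A L b • u

lemma M_coe (L b : ℝ) (u : L2) : (M L b u : ℝ → ℂ) =ᵐ[mu] fun x => (pr L b x : ℂ) * u x := by
  have h1 : (M L b u : ℝ → ℂ) =ᵐ[mu] (A L b : ℝ → ℂ) • (u : ℝ → ℂ) := Lp.coeFn_lpSMul _ _
  have h2 : (A L b : ℝ → ℂ) =ᵐ[mu] fun x => (pr L b x : ℂ) := (pr_mem L b).coeFn_toLp
  filter_upwards [h1, h2] with x hx hx2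
  rw [hx, Pi.smul_apply', hx2, smul_eq_mul]

lemma M_add (L b : ℝ) (u v : L2) : M L b (u + v) = M L b u + M L b v := Lp.add_smul _ _ _

lemma M_smul (L b : ℝ) (c : ℂ) (u : L2) : M L b (c • u) = c • M L b u := by
  apply Lp.ext
  filter_upwards [M_coe L b (c • u), M_coe L b u, Lp.coeFn_smul c u,
    Lp.coeFn_smul c (M L b u)] with x h1 h2 h3 h4
  rw [h1, h4, Pi.smul_apply, h2, h3, Pi.smul_apply, smul_eq_mul, smul_eq_mul]
  ring

lemma M_symm (L b : ℝ) (u v : L2) : ⟪M L b u, v⟫_ℂ = ⟪u, M L b v⟫_ℂ := by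
  rw [MeasureTheory.L2.inner_def, MeasureTheory.L2.inner_def]
  refine integral_congr_ae ?_
  filter_upwards [M_coe L b u, M_coe L b v] with x h1 h2
  rw [h1, h2, RCLike.inner_apply, RCLike.inner_apply, map_mul]
  simp only [Complex.conj_ofReal]
  ring

lemma M_quad (L b : ℝ) (u : L2) :
    ∫ x, pr L b x * ‖u x‖ ^ 2 ∂mu = (⟪u, M L b u⟫_ℂ).re := by
  rw [MeasureTheory.L2.inner_def]
  have h : ∫ x, ⟪u x, (M L b u) x⟫_ℂ ∂mu = ((∫ x, pr L b x * ‖u x‖ ^ 2 ∂mu : ℝ) : ℂ) := by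
    rw [← integral_complex_ofReal]
    refine integral_congr_ae ?_
    filter_upwards [M_coe L b u] with x h1
    rw [h1, RCLike.inner_apply]
    push_cast
    rw [← Complex.conj_mul' (u x)]
    ring
  rw [h, Complex.ofReal_re]

lemma trig1 (x : ℝ) : Real.cos (2 * π * x) * (√2 * Real.cos (π * x)) =
    1 / 2 * (√2 * Real.cos (π * x)) + 1 / 2 * (√2 * Real.cos (3 * π * x)) := by
  have h1 : (3 * π * x : ℝ) = 2 * π * x + π * x := by ring
  have h2 : (π * x : ℝ) = 2 * π * x - π * x := by ring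
  have h3 : Real.cos (π * x) = Real.cos (2 * π * x - π * x) := by rw [← h2]
  rw [h1, Real.cos_add]
  rw [Real.cos_sub] at h3
  linear_combination (-(√2) / 2) * h3

lemma trig2 (x : ℝ) : Real.cos (2 * π * x) * (√2 * Real.sin (π * x)) =
    -(1 / 2) * (√2 * Real.sin (π * x)) + 1 / 2 * (√2 * Real.sin (3 * π * x)) := by
  have h1 : (3 * π * x : ℝ) = 2 * π * x + π * x := by ring
  have h2 : (π * x : ℝ) = 2 * π * x - π * x := by ring
  have h3 : Real.sin (π * x) = Real.sin (2 * π * x - π * x) := by rw [← h2]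
  rw [h1, Real.sin_add]
  rw [Real.sin_sub] at h3
  linear_combination (√2 / 2) * h3

lemma f0 (x : ℝ) : f 0 x = ((√2 * Real.cos (π * x) : ℝ) : ℂ) := by
  rw [f, sg0]; simp [nat]
lemma f1 (x : ℝ) : f 1 x = ((√2 * Real.sin (π * x) : ℝ) : ℂ) := by
  rw [f, sg1]; simp [nat]
lemma f2 (x : ℝ) : f 2 x = ((√2 * Real.sin (3 * π * x) : ℝ) : ℂ) := by
  have h : ¬ Even 3 := by decide
  rw [f, sg2, nat, if_neg h]; norm_num
lemma f3 (x : ℝ) : f 3 x = ((√2 * Real.cos (3 * π * x) : ℝ) : ℂ) := by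
  rw [f, sg3, nat, if_pos (by decide)]; norm_num

lemma M_B0 (L b : ℝ) : M L b (B 0) = ((L + b / 2 : ℝ) : ℂ) • B 0 + ((b / 2 : ℝ) : ℂ) • B 3 := by
  apply Lp.ext
  filter_upwards [M_coe L b (B 0), B_ae 0, B_ae 3, Lp.coeFn_smul ((L + b / 2 : ℝ) : ℂ) (B 0),
    Lp.coeFn_smul ((b / 2 : ℝ) : ℂ) (B 3),
    Lp.coeFn_add (((L + b / 2 : ℝ) : ℂ) • B 0) (((b / 2 : ℝ) : ℂ) • B 3)] with x h1 h2 h3 h4 h5 h6
  rw [h1, h6, Pi.add_apply, h4, h5, Pi.smul_apply, Pi.smul_apply, h2, h3, f0, f3, pr, smul_eq_mul,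
    smul_eq_mul]
  norm_cast
  have := trig1 x
  linear_combination b * this

lemma M_B1 (L b : ℝ) : M L b (B 1) = ((L - b / 2 : ℝ) : ℂ) • B 1 + ((b / 2 : ℝ) : ℂ) • B 2 := by
  apply Lp.ext
  filter_upwards [M_coe L b (B 1), B_ae 1, B_ae 2, Lp.coeFn_smul ((L - b / 2 : ℝ) : ℂ) (B 1),
    Lp.coeFn_smul ((b / 2 : ℝ) : ℂ) (B 2),
    Lp.coeFn_add (((L - b / 2 : ℝ) : ℂ) • B 1) (((b / 2 : ℝ) : ℂ) • B 2)] with x h1 h2 h3 h4 h5 h6
  rw [h1, h6, Pi.add_apply, h4, h5, Pi.smul_apply, Pi.smul_apply, h2, h3, f1, f2, pr, smul_eq_mul,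
    smul_eq_mul]
  norm_cast
  have := trig2 x
  linear_combination b * this

lemma inner_B (i j : ℕ) : ⟪B i, B j⟫_ℂ = if i = j then 1 else 0 := by
  have := B.orthonormal
  rw [orthonormal_iff_ite] at this
  exact this i j

/-- decomposition of the quadratic form -/
lemma quad_decomp (L b : ℝ) (c0 c1 : ℂ) (z : L2) (h0 : ⟪B 0, z⟫_ℂ = 0) (h1 : ⟪B 1, z⟫_ℂ = 0) :
    (⟪c0 • B 0 + c1 • B 1 + z, M L b (c0 • B 0 + c1 • B 1 + z)⟫_ℂ).re =
      ‖c0‖ ^ 2 * (L + b / 2) + ‖c1‖ ^ 2 * (L - b / 2) + (⟪z, M L b z⟫_ℂ).re +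
      b * ((starRingEnd ℂ c0) * ⟪B 3, z⟫_ℂ).re + b * ((starRingEnd ℂ c1) * ⟪B 2, z⟫_ℂ).re := by
  have e0 : ⟪B 0, M L b z⟫_ℂ = ((b / 2 : ℝ) : ℂ) * ⟪B 3, z⟫_ℂ := by
    rw [← M_symm, M_B0, inner_add_left, inner_smul_left, inner_smul_left, h0]
    simp only [Complex.conj_ofReal]
    ring
  have e1 : ⟪B 1, M L b z⟫_ℂ = ((b / 2 : ℝ) : ℂ) * ⟪B 2, z⟫_ℂ := by
    rw [← M_symm, M_B1, inner_add_left, inner_smul_left, inner_smul_left, h1]
    simp only [Complex.conj_ofReal]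
    ring
  have h0' : ⟪z, B 0⟫_ℂ = 0 := by rw [← inner_conj_symm, h0, map_zero]
  have h1' : ⟪z, B 1⟫_ℂ = 0 := by rw [← inner_conj_symm, h1, map_zero]
  have h2' : ⟪z, B 2⟫_ℂ = starRingEnd ℂ ⟪B 2, z⟫_ℂ := (inner_conj_symm _ _).symm
  have h3' : ⟪z, B 3⟫_ℂ = starRingEnd ℂ ⟪B 3, z⟫_ℂ := (inner_conj_symm _ _).symm
  rw [M_add, M_add, M_smul, M_smul, M_B0, M_B1]
  simp only [inner_add_left, inner_add_right, inner_smul_left, inner_smul_right, e0, e1, h0', h1',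
    h2', h3', inner_B]
  norm_num
  have n0 : ‖c0‖ ^ 2 = c0.re ^ 2 + c0.im ^ 2 := by
    rw [← Complex.normSq_eq_norm_sq, Complex.normSq_apply]; ring
  have n1 : ‖c1‖ ^ 2 = c1.re ^ 2 + c1.im ^ 2 := by
    rw [← Complex.normSq_eq_norm_sq, Complex.normSq_apply]; ring
  have r2 : (⟪z, B 2⟫_ℂ).re = (⟪B 2, z⟫_ℂ).re := by rw [h2', Complex.conj_re]
  have i2 : (⟪z, B 2⟫_ℂ).im = -(⟪B 2, z⟫_ℂ).im := by rw [h2', Complex.conj_im]
  have r3 : (⟪z, B 3⟫_ℂ).re = (⟪B 3, z⟫_ℂ).re := by rw [h3', Complex.conj_re]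
  have i3 : (⟪z, B 3⟫_ℂ).im = -(⟪B 3, z⟫_ℂ).im := by rw [h3', Complex.conj_im]
  rw [n0, n1, r2, i2, r3, i3]
  ring

end Pool.Agent.R190.Bang
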