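import Pool.Agent.R190.Bang.Basis

set_option autoImplicit false
set_option linter.unusedSectionVars false

open MeasureTheory Set Filter Topology
open scoped InnerProductSpace

namespace Pool.Agent.R190.Bang

section Diag

variable {H : Type*} [NormedAddCommGroup H] [InnerProductSpace ℂ H] [CompleteSpace H]
variable (b : HilbertBasis ℕ ℂ H)

lemma hasSum_coef (y : H) : HasSum (fun j => ‖b.repr y j‖ ^ 2) (‖y‖ ^ 2) := by
  have H₁ : HasSum (fun i => ‖b.repr y i‖ ^ 2) (‖b.repr y‖ ^ 2) := by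
    apply_mod_cast lp.hasSum_norm ?_ (b.repr y)
    simp
  have H₂ : ‖b.repr y‖ ^ 2 = ‖y‖ ^ 2 := by simp
  rwa [H₂] at H₁

lemma norm_le_of_coef {u y : H} {C : ℝ} (hC : 0 ≤ C)
    (h : ∀ j, ‖b.repr u j‖ ≤ C * ‖b.repr y j‖) : ‖u‖ ≤ C * ‖y‖ := by
  have h1 := hasSum_coef b u
  have h2 := (hasSum_coef b y).mul_left (C ^ 2)
  have h3 : ‖u‖ ^ 2 ≤ C ^ 2 * ‖y‖ ^ 2 := by
    refine hasSum_le (fun j => ?_) h1 h2
    have := h j
    have h0 := norm_nonneg (b.repr u j)
    calc ‖b.repr u j‖ ^ 2 ≤ (C * ‖b.repr y j‖) ^ 2 := pow_le_pow_left₀ h0 this 2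
      _ = C ^ 2 * ‖b.repr y j‖ ^ 2 := by ring
  have h4 : ‖u‖ ^ 2 ≤ (C * ‖y‖) ^ 2 := by rw [mul_pow]; exact h3
  exact le_of_sq_le_sq h4 (by positivity)

lemma memlp_mul {m : ℕ → ℂ} {C : ℝ} (hm : ∀ j, ‖m j‖ ≤ C) (y : H) :
    Memℓp (fun j => m j * b.repr y j) 2 := by
  apply memℓp_gen
  have h1 := ((hasSum_coef b y).mul_left (C ^ 2)).summable
  refine Summable.of_nonneg_of_le (fun j => by positivity) (fun j => ?_) h1
  have h2 : (2 : ENNReal).toReal = 2 := by simp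
  rw [h2]
  norm_cast
  rw [norm_mul, mul_pow]
  have := hm j
  gcongr

/-- The diagonal operator with the bounded symbol `m`. -/
noncomputable def Dg (m : ℕ → ℂ) (C : ℝ) (hm : ∀ j, ‖m j‖ ≤ C) : H →L[ℂ] H :=
  LinearMap.mkContinuous
    { toFun := fun y => b.repr.symm ⟨fun j => m j * b.repr y j, memlp_mul b hm y⟩
      map_add' := by
        intro x y
        rw [← map_add]
        congr 1
        ext j
        simp [mul_add] <;> rfl
      map_smul' := by
        intro c x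
        rw [RingHom.id_apply, ← map_smul]
        congr 1
        ext j
        simp only [map_smul, lp.coeFn_smul, Pi.smul_apply, smul_eq_mul]
        ring } C (by
      intro y
      refine norm_le_of_coef b ((norm_nonneg _).trans (hm 0)) fun j => ?_
      simp only [LinearMap.coe_mk, AddHom.coe_mk, LinearIsometryEquiv.apply_symm_apply, norm_mul]
      exact mul_le_mul_of_nonneg_right (hm j) (norm_nonneg _))

lemma repr_Dg (m : ℕ → ℂ) (C : ℝ) (hm : ∀ j, ‖m j‖ ≤ C) (y : H) (j : ℕ) :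
    b.repr (Dg b m C hm y) j = m j * b.repr y j := by
  simp [Dg]

/-- symbol of the semigroup -/
noncomputable def sym (lam : ℕ → ℂ) (t : ℝ) (j : ℕ) : ℂ :=
  if 0 ≤ t then Complex.exp (-(lam j) * t) else 0

lemma sym_le (lam : ℕ → ℂ) (K : ℝ) (hK : ∀ j, K ≤ (lam j).re) (t : ℝ) (j : ℕ) :
    ‖sym lam t j‖ ≤ Real.exp (-K * t) := by
  unfold sym
  split_ifs with h
  · rw [Complex.norm_exp]
    apply Real.exp_le_exp.2
    have := hK j
    simp only [Complex.mul_re, Complex.neg_re, Complex.ofReal_re, Complex.neg_im,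
      Complex.ofReal_im, mul_zero, sub_zero]
    nlinarith
  · rw [norm_zero]; positivity

/-- The diagonal semigroup. -/
noncomputable def Sg (lam : ℕ → ℂ) (K : ℝ) (hK : ∀ j, K ≤ (lam j).re) (t : ℝ) : H →L[ℂ] H :=
  Dg b (sym lam t) (Real.exp (-K * t)) (sym_le lam K hK t)

variable (lam : ℕ → ℂ) (K : ℝ) (hK : ∀ j, K ≤ (lam j).re)

lemma repr_Sg {t : ℝ} (ht : 0 ≤ t) (y : H) (j : ℕ) :
    b.repr (Sg b lam K hK t y) j = Complex.exp (-(lam j) * t) * b.repr y j := by
  rw [Sg, repr_Dg, sym, if_pos ht]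

lemma ext_repr {u v : H} (h : ∀ j, b.repr u j = b.repr v j) : u = v := by
  apply b.repr.injective
  ext j
  exact h j

lemma Sg_zero : Sg b lam K hK 0 = ContinuousLinearMap.id ℂ H := by
  ext y
  refine ext_repr b fun j => ?_
  rw [repr_Sg b lam K hK le_rfl]
  simp

lemma Sg_add (s t : ℝ) (hs : 0 ≤ s) (ht : 0 ≤ t) :
    Sg b lam K hK (s + t) = (Sg b lam K hK s).comp (Sg b lam K hK t) := by
  ext y
  refine ext_repr b fun j => ?_
  rw [repr_Sg b lam K hK (add_nonneg hs ht), ContinuousLinearMap.comp_apply,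
    repr_Sg b lam K hK hs, repr_Sg b lam K hK ht, ← mul_assoc, ← Complex.exp_add]
  congr 2
  push_cast
  ring

lemma norm_exp_le {t : ℝ} (ht : 0 ≤ t) {m : ℝ} {z : ℂ} (hm : m ≤ z.re) :
    ‖Complex.exp (-z * t)‖ ≤ Real.exp (-m * t) := by
  rw [Complex.norm_exp]
  apply Real.exp_le_exp.2
  simp only [Complex.mul_re, Complex.neg_re, Complex.ofReal_re, Complex.neg_im,
    Complex.ofReal_im, mul_zero, sub_zero]
  nlinarith

lemma Sg_cont (y : H) : ContinuousOn (fun t => Sg b lam K hK t y) (Ici 0) := by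
  intro t0 ht0
  have ht0' : (0 : ℝ) ≤ t0 := ht0
  rw [ContinuousWithinAt, tendsto_iff_norm_sub_tendsto_zero]
  set B : ℝ := Real.exp (|K| * (t0 + 1)) with hB
  have hnear : ∀ᶠ t in 𝓝[Ici 0] t0, 0 ≤ t ∧ t ≤ t0 + 1 := by
    have h1 : ∀ᶠ t in 𝓝[Ici 0] t0, t ∈ Ici (0 : ℝ) := self_mem_nhdsWithin
    have h2 : ∀ᶠ t in 𝓝[Ici 0] t0, t < t0 + 1 :=
      nhdsWithin_le_nhds (Iio_mem_nhds (by linarith))
    filter_upwards [h1, h2] with t h3 h4 using ⟨h3, h4.le⟩
  have hbd : ∀ t : ℝ, 0 ≤ t → t ≤ t0 + 1 → ∀ j, ‖Complex.exp (-(lam j) * t)‖ ≤ B := by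
    intro t h0 h1 j
    refine (norm_exp_le h0 (hK j)).trans ?_
    rw [hB]
    apply Real.exp_le_exp.2
    calc -K * t ≤ |K| * t := mul_le_mul_of_nonneg_right (neg_le_abs K) h0
      _ ≤ |K| * (t0 + 1) := mul_le_mul_of_nonneg_left h1 (abs_nonneg _)
  have hsum : ∀ᶠ t : ℝ in 𝓝[Ici 0] t0, ∑' j, ‖(Complex.exp (-(lam j) * t) -
      Complex.exp (-(lam j) * t0)) * b.repr y j‖ ^ 2 =
      ‖Sg b lam K hK t y - Sg b lam K hK t0 y‖ ^ 2 := by
    filter_upwards [hnear] with t ht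
    rw [← (hasSum_coef b _).tsum_eq]
    refine tsum_congr fun j => ?_
    rw [map_sub, lp.coeFn_sub, Pi.sub_apply, repr_Sg b lam K hK ht.1, repr_Sg b lam K hK ht0']
    congr 2
    ring
  have h : Tendsto (fun t => ‖Sg b lam K hK t y - Sg b lam K hK t0 y‖ ^ 2) (𝓝[Ici 0] t0)
      (𝓝 0) := by
    refine Tendsto.congr' hsum ?_
    have key : Tendsto (fun t : ℝ => ∑' j, ‖(Complex.exp (-(lam j) * t) -
      Complex.exp (-(lam j) * t0)) * b.repr y j‖ ^ 2) (𝓝[Ici 0] t0)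
      (𝓝 (∑' _ : ℕ, (0 : ℝ))) := ?_
    · rw [tsum_zero] at key
      exact key
    refine tendsto_tsum_of_dominated_convergence
      (bound := fun j => (2 * B) ^ 2 * ‖b.repr y j‖ ^ 2)
      ((hasSum_coef b y).mul_left _).summable (fun j => ?_) ?_
    · have hc : Continuous fun t : ℝ => ‖(Complex.exp (-(lam j) * t) -
          Complex.exp (-(lam j) * t0)) * b.repr y j‖ ^ 2 := by fun_prop
      have := (hc.tendsto t0).mono_left (nhdsWithin_le_nhds (s := Ici 0))
      simpa using this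
    · filter_upwards [hnear] with t ht j
      rw [Real.norm_of_nonneg (by positivity), norm_mul, mul_pow]
      have h1 := hbd t ht.1 ht.2 j
      have h2 := hbd t0 ht0' (by linarith) j
      have h3 := norm_sub_le (Complex.exp (-(lam j) * t)) (Complex.exp (-(lam j) * t0))
      have h4 : ‖Complex.exp (-(lam j) * t) - Complex.exp (-(lam j) * t0)‖ ≤ 2 * B := by linarith
      gcongr
  have h' := (Real.continuous_sqrt.tendsto 0).comp h
  simp only [Real.sqrt_zero] at h'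
  refine h'.congr fun t => ?_
  simp only [Function.comp]
  rw [Real.sqrt_sq (norm_nonneg _)]

lemma Sg_basis {t : ℝ} (ht : 0 ≤ t) (j : ℕ) :
    Sg b lam K hK t (b j) = Complex.exp (-(lam j) * t) • b j := by
  refine ext_repr b fun i => ?_
  rw [repr_Sg b lam K hK ht, map_smul, lp.coeFn_smul, Pi.smul_apply, smul_eq_mul, b.repr_self]
  by_cases h : i = j
  · subst h; rfl
  · rw [lp.single_apply_ne _ _ _ h]
    simp

lemma Sg_gen (j : ℕ) :
    HasDerivWithinAt (fun t : ℝ => Sg b lam K hK t (b j)) (-(lam j • b j)) (Ici 0) 0 := by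
  have h1 : HasDerivAt (fun t : ℝ => Complex.exp (-(lam j) * t)) (-(lam j)) 0 := by
    have h2 : HasDerivAt (fun t : ℝ => -(lam j) * (t : ℂ)) (-(lam j) * 1) 0 :=
      (Complex.ofRealCLM.hasDerivAt (x := (0 : ℝ))).const_mul (-(lam j))
    have h3 := h2.cexp
    simpa using h3
  have h2 : HasDerivWithinAt (fun t : ℝ => Complex.exp (-(lam j) * t) • b j)
      (-(lam j) • b j) (Ici 0) 0 := (h1.smul_const (b j)).hasDerivWithinAt
  rw [← neg_smul]
  refine h2.congr (fun t ht => Sg_basis b lam K hK ht j) (Sg_basis b lam K hK le_rfl j)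

/-- decay on the part of the space with `m ≤ Re λ_j` -/
lemma Sg_decay {m : ℝ} {t : ℝ} (ht : 0 ≤ t) (y : H)
    (hy : ∀ j, b.repr y j = 0 ∨ m ≤ (lam j).re) :
    ‖Sg b lam K hK t y‖ ≤ Real.exp (-m * t) * ‖y‖ := by
  refine norm_le_of_coef b (Real.exp_nonneg _) fun j => ?_
  rw [repr_Sg b lam K hK ht, norm_mul]
  rcases hy j with h | h
  · rw [h]; simp
  · exact mul_le_mul_of_nonneg_right (norm_exp_le ht h) (norm_nonneg _)

end Diag

end Pool.Agent.R190.Bang
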